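import Mathlib
import Pool.Agent.MP_df0aa7_co.AD.Par

set_option autoImplicit false

open Pool.Agent.MP_df0aa7_co

/-- One constant `C` for all degrees `d ≥ 3` and all numbers `n` of vertices: if `G` is connected,
`d`-regular and all adjacency eigenvalues other than `d` are at most `lam ≥ 2 √(d - 1)`, then the
fraction of signings whose eigenvalues all have absolute value less than
`lam (1 + C (log d / d)^(2/3))` is at least `1 - 1 / n`.
A Ramanujan graph satisfies the hypothesis with `lam = 2 √(d - 1)`. -/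
theorem Pool.Agent.Results.MP_df0aa7_co.DegreeRate.result :
    ∃ C : ℝ, ∀ (d : ℕ) (lam : ℝ), 3 ≤ d → 2 * √((d : ℝ) - 1) ≤ lam →
      ∀ (V : Type) [Fintype V] [DecidableEq V] (G : SimpleGraph V) [DecidableRel G.Adj],
        G.Connected → G.IsRegularOfDegree d →
        (∀ μ ∈ spectrum ℝ (G.adjMatrix ℝ), μ ≠ (d : ℝ) → μ ≤ lam) →
        1 - 1 / (Fintype.card V : ℝ) ≤
          (Nat.card {σ : G.edgeSet → ℤˣ // ∀ μ ∈ spectrum ℝ (signedAdj G σ),
              |μ| < lam * (1 + C * (Real.log d / d) ^ (2 / 3 : ℝ))} : ℝ) /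
            (Nat.card (G.edgeSet → ℤˣ) : ℝ) := by
  refine ⟨2304 * 17 ^ 48, fun d lam h3 hlam V _ _ G _ hc hd hl => ?_⟩
  refine AD.Rare.frac G ((AD.main G hc hd h3 hlam hl).mono G ?_)
  have : 0 ≤ lam := le_trans (by positivity) hlam
  gcongr
  exact min_le_left _ _
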