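import Mathlib
import Pool.Agent.MP_df0aa7_co.h16.Stmt
import Pool.Agent.MP_df0aa7_co.h66.Final

set_option autoImplicit false

namespace Pool.Agent.Results.MP_df0aa7_co.Dichotomy

/-- connected, `d`-regular, every adjacency eigenvalue with `|l| ≠ d` has `|l| ≤ 2√(d-1)` -/
def IsRamanujan {n : ℕ} (G : SimpleGraph (Fin n)) [DecidableRel G.Adj] (d : ℕ) : Prop :=
  G.Connected ∧ G.IsRegularOfDegree d ∧
    ∀ l ∈ spectrum ℝ (G.adjMatrix ℝ), |l| ≠ d → |l| ≤ 2 * √((d : ℝ) - 1)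

/-- the signing whose negative edges are those in `T` -/
def signed {n : ℕ} (G : SimpleGraph (Fin n)) [DecidableRel G.Adj] (T : Finset (Sym2 (Fin n))) :
    Matrix (Fin n) (Fin n) ℝ :=
  fun u v => if G.Adj u v then (if s(u, v) ∈ T then -1 else 1) else 0

open Classical in
/-- the fraction of signings all of whose eigenvalues have absolute value less than `y` -/
noncomputable def prob {n : ℕ} (G : SimpleGraph (Fin n)) [DecidableRel G.Adj] (y : ℝ) : ℝ :=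
  ((G.edgeFinset.powerset.filter fun T => ∀ l ∈ spectrum ℝ (signed G T), |l| < y).card : ℝ) /
    2 ^ G.edgeFinset.card

theorem result : ∃ C : ℝ, ∀ d : ℕ, 3 ≤ d → ∀ ε : ℝ, 0 < ε → ∃ (c : ℝ) (n₀ : ℕ), 0 < c ∧
    ∀ (n : ℕ) (G : SimpleGraph (Fin n)) [DecidableRel G.Adj], IsRamanujan G d →
      c ≤ prob G (2 * √((d : ℝ) - 1) + ε) ∨
      (prob G (2 * √((d : ℝ) - 1) + ε) = 0 ∧ n < n₀ ∧
        ∃ (v : Fin n) (w : G.Walk v v), w.IsCycle ∧ Odd w.length ∧
          ((d : ℝ) + w.length) * ε < C * √(d : ℝ)) := by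
  classical
  obtain ⟨C, hC, hs⟩ := Pool.Agent.MP_df0aa7_co.h66.signing_odd
  refine ⟨C, fun d hd ε hε => ?_⟩
  obtain ⟨c, n0, hc, h⟩ := Pool.Agent.MP_df0aa7_co.h16.zero_or d hd hε
  refine ⟨c, n0, hc, fun n G _ hG => ?_⟩
  have h1 := h (Fin n) G hG
  rw [Fintype.card_fin] at h1
  by_cases h2 : n0 ≤ n ∨ G.Colorable 2 ∨ ∃ T ⊆ G.edgeFinset,
      ∀ l ∈ spectrum ℝ (Pool.Agent.MP_df0aa7_co.h16.sg G T), |l| < 2 * √((d : ℝ) - 1) + ε
  · exact Or.inl (h1 h2)
  · simp only [not_or] at h2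
    refine Or.inr ⟨?_, not_le.1 h2.1, ?_⟩
    · unfold prob
      rw [div_eq_zero_iff, Nat.cast_eq_zero, Finset.card_eq_zero, Finset.filter_eq_empty_iff]
      exact Or.inl fun T hT h3 => h2.2.2 ⟨T, Finset.mem_powerset.1 hT, h3⟩
    · by_contra k
      have d0 : (0 : ℝ) < d := by exact_mod_cast (by omega : 0 < d)
      obtain ⟨T, hT, e⟩ := hs d ⌈C * √(d : ℝ) / ε - d⌉₊ (by omega) (Fin n) G
        (fun v => (hG.2.1.degree_eq v).le) fun v w w1 w2 => Nat.ceil_le.2 (by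
          rw [sub_le_iff_le_add', div_le_iff₀ hε]
          exact not_lt.1 fun a => k ⟨v, w, w1, w2, a⟩)
      refine h2.2.2 ⟨T, hT, fun l hl => (e l hl).trans_le (add_le_add_right ?_ _)⟩
      have := Nat.le_ceil (C * √(d : ℝ) / ε - d)
      rw [sub_le_iff_le_add', div_le_iff₀ hε] at this
      rw [div_le_iff₀ (by positivity)]
      linarith

end Pool.Agent.Results.MP_df0aa7_co.Dichotomy
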