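import Mathlib
import Pool.Agent.MP_df0aa7_co.Main

set_option autoImplicit false

open Pool.Agent.MP_df0aa7_co

/-- For every degree `d`, every `lam ≥ 0` and every `ε > 0` there is `n₀` such that, for every
connected `d`-regular graph `G` on `n ≥ n₀` vertices all of whose adjacency eigenvalues other than
`d` are at most `lam`, the fraction of signings whose eigenvalues all have absolute value less
than `lam + ε` is at least `1 - 1 / n`.  A Ramanujan graph satisfies the hypothesis with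
`lam = 2 √(d - 1)`. -/
theorem Pool.Agent.Results.MP_df0aa7_co.LargeGraphs.result :
    ∀ (d : ℕ) (lam ε : ℝ), 0 ≤ lam → 0 < ε →
      ∃ n₀ : ℕ, ∀ (V : Type) [Fintype V] [DecidableEq V] (G : SimpleGraph V) [DecidableRel G.Adj],
        n₀ ≤ Fintype.card V → G.Connected → G.IsRegularOfDegree d →
        (∀ μ ∈ spectrum ℝ (G.adjMatrix ℝ), μ ≠ (d : ℝ) → μ ≤ lam) →
        1 - 1 / (Fintype.card V : ℝ) ≤
          (Nat.card {σ : G.edgeSet → ℤˣ //
              ∀ μ ∈ spectrum ℝ (signedAdj G σ), |μ| < lam + ε} : ℝ) /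
            (Nat.card (G.edgeSet → ℤˣ) : ℝ) := by
  classical
  intro d lam ε h0 hε
  obtain ⟨n₀, h⟩ := main d lam ε h0 hε
  refine ⟨n₀, fun V _ _ G _ hn hc hd hl => ?_⟩
  have h1 := h V G hn hc hd hl
  have hN : (0 : ℝ) < Fintype.card (G.edgeSet → ℤˣ) := by exact_mod_cast Fintype.card_pos
  have h2 := Finset.card_filter_add_card_filter_not (s := Finset.univ)
    (fun σ : G.edgeSet → ℤˣ => ∀ μ ∈ spectrum ℝ (signedAdj G σ), |μ| < lam + ε)
  have h3 : (Finset.univ.filter fun σ : G.edgeSet → ℤˣ =>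
      ¬ ∀ μ ∈ spectrum ℝ (signedAdj G σ), |μ| < lam + ε) =
      Finset.univ.filter fun σ : G.edgeSet → ℤˣ =>
        ∃ μ ∈ spectrum ℝ (signedAdj G σ), lam + ε ≤ |μ| := by
    refine Finset.filter_congr fun σ _ => ?_
    push Not
    rfl
  rw [h3, Finset.card_univ] at h2
  have h4 := congrArg (Nat.cast : ℕ → ℝ) h2
  rw [Nat.cast_add] at h4
  rw [Nat.card_eq_fintype_card, Nat.card_eq_fintype_card, Fintype.card_subtype,
    le_div_iff₀ hN]
  have h5 : (1 - 1 / (Fintype.card V : ℝ)) * Fintype.card (G.edgeSet → ℤˣ) =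
      Fintype.card (G.edgeSet → ℤˣ) - Fintype.card (G.edgeSet → ℤˣ) / Fintype.card V := by ring
  rw [h5]
  convert sub_le_sub_left h1 (Fintype.card (G.edgeSet → ℤˣ) : ℝ) |>.trans (le_of_eq ?_)
  linarith
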