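import Mathlib
import Pool.Agent.MP_df0aa7_co.h66.Final

set_option autoImplicit false

namespace Pool.Agent.Results.MP_df0aa7_co.TwoSided

/-- the signing whose negative edges are those in `T` -/
def signed {n : ℕ} (G : SimpleGraph (Fin n)) [DecidableRel G.Adj] (T : Finset (Sym2 (Fin n))) :
    Matrix (Fin n) (Fin n) ℝ :=
  fun u v => if G.Adj u v then (if s(u, v) ∈ T then -1 else 1) else 0

theorem result : ∃ C : ℝ, ∀ d g : ℕ, 2 ≤ d →
    ∀ (n : ℕ) (G : SimpleGraph (Fin n)) [DecidableRel G.Adj], (∀ v, G.degree v ≤ d) →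
      (∀ (v : Fin n) (w : G.Walk v v), w.IsCycle → Odd w.length → g ≤ w.length) →
      ∃ T ⊆ G.edgeFinset, ∀ l ∈ spectrum ℝ (signed G T),
        |l| < 2 * √((d : ℝ) - 1) + C * √(d : ℝ) / ((d : ℝ) + g) := by
  obtain ⟨C, -, h⟩ := Pool.Agent.MP_df0aa7_co.h66.signing_odd
  exact ⟨C, fun d g hd n G _ hG ho => h d g hd (Fin n) G hG ho⟩

end Pool.Agent.Results.MP_df0aa7_co.TwoSided
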